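import Pool.Agent.helper12.SP.K3
import Pool.Agent.helper12.SP.D4
import Pool.Agent.helper12.SP.H2
import Pool.Agent.helper73.SP.B
import Pool.Agent.helper24.SP.I

/-!
# Languages in exponential space which are hard for cellular automata

For every `c ≥ 1` there is a language in `DSPACE (2 ^ (c n))` such that every one-dimensional cellular
automaton, with any advice of `|α|` bits depending on the input length, gives the right answer within
`2 ^ (2 c n) / (n + 1) ^ 4` steps on at most
`1 / 2 + (2 (|α| + 2 n) / 2 ^ n) ^ (1 / 2) / 2` of the inputs of length `n`, and not on all of them if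
the advice has at most `2 ^ n - 2 n` bits.
-/

set_option autoImplicit false

namespace Pool.Agent.Results.MP_d67941_lc.HardForAutomata

open Pool.Agent.helper12.SP

theorem result (c : ℕ) (hc : 1 ≤ c) :
    ∃ L : Set (List Bool), (∃ C : ℕ, L ∈ DSPACE (fun n => C * 2 ^ (c * n))) ∧
      ∀ A : Aut, ∃ n₀ : ℕ, ∀ n ≥ n₀, ∀ α : List Bool,
        (α.length + 2 * n ≤ 2 ^ n → (right A L c n α).ncard < 2 ^ n) ∧
        (2 * (right A L c n α).ncard - 2 ^ n) ^ 2 ≤ 2 * 2 ^ n * (α.length + 2 * n) :=
  result2_of (fun hf s hs => dspace_of_cmp hf s hs) cmp_hard code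
    (fun hp h1 hκ hq hN1 hN2 hN3 hM hX hZ => out_eq hp h1 hκ hq hN1 hN2 hN3 hM hX hZ) c hc

end Pool.Agent.Results.MP_d67941_lc.HardForAutomata
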